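import Pool.Agent.R489.HB.Stm

set_option autoImplicit false

namespace Pool.Agent.R434.HB

open Finset Pool.Agent.R489.HB

theorem fc_of_four {W : Type} [DecidableEq W] (Φ : Finset (Finset W)) (b : W → Fin 3)
    (w1 w2 w3 w4 : W) (hv : vts Φ ⊆ {w1, w2, w3, w4}) (hne : w1 ≠ w2)
    (h12 : b w1 = b w2) (h13 : b w1 ≠ b w3) (h14 : b w1 ≠ b w4) (h34 : b w3 ≠ b w4) :
    FC Φ b := by
  unfold FC
  have hs : {e : Finset W | e ∈ edg Φ ∧ mono b e} ⊆ {({w1, w2} : Finset W)} := by
    rintro e ⟨he, hm⟩
    rw [Set.mem_singleton_iff]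
    unfold edg at he
    rw [Finset.mem_biUnion] at he
    obtain ⟨f, hf, he⟩ := he
    rw [Finset.mem_powersetCard] at he
    obtain ⟨hef, hc⟩ := he
    obtain ⟨x, y, hxy, rfl⟩ := Finset.card_eq_two.1 hc
    have hx : x ∈ ({w1, w2, w3, w4} : Finset W) := by
      apply hv
      unfold vts
      rw [Finset.mem_biUnion]
      exact ⟨f, hf, hef (by simp)⟩
    have hy : y ∈ ({w1, w2, w3, w4} : Finset W) := by
      apply hv
      unfold vts
      rw [Finset.mem_biUnion]
      exact ⟨f, hf, hef (by simp)⟩
    have hb : b x = b y := hm x (by simp) y (by simp)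
    simp only [Finset.mem_insert, Finset.mem_singleton] at hx hy
    have h23 : b w2 ≠ b w3 := h12 ▸ h13
    have h24 : b w2 ≠ b w4 := h12 ▸ h14
    rcases hx with rfl | rfl | rfl | rfl <;> rcases hy with rfl | rfl | rfl | rfl <;>
      first
      | exact absurd rfl hxy
      | exact absurd hb (by assumption)
      | exact absurd hb.symm (by assumption)
      | rfl
      | exact Finset.pair_comm _ _
  refine LinearIndepOn.mono ?_ hs
  rw [linearIndepOn_singleton_iff]
  intro h0
  have := congrFun h0 w1
  simp [ind] at this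

theorem FCB : S_FCB := by
  intro W _ Φ T a hT hTΦ h4 hm
  classical
  have hT3 := hT.three T hTΦ
  have hTv : T ⊆ vts Φ := by
    intro x hx
    unfold vts
    rw [Finset.mem_biUnion]
    exact ⟨T, hTΦ, hx⟩
  have hc1 : (vts Φ \ T).card = 1 := by
    rw [Finset.card_sdiff_of_subset hTv]; omega
  obtain ⟨v, hv⟩ := Finset.card_eq_one.1 hc1
  have hvT : v ∉ T := by
    have : v ∈ vts Φ \ T := by rw [hv]; simp
    exact (Finset.mem_sdiff.1 this).2
  have hvt : vts Φ ⊆ insert v T := by
    intro x hx
    by_cases hxT : x ∈ T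
    · exact Finset.mem_insert_of_mem hxT
    · have : x ∈ vts Φ \ T := Finset.mem_sdiff.2 ⟨hx, hxT⟩
      rw [hv, Finset.mem_singleton] at this
      rw [this]; exact Finset.mem_insert_self _ _
  obtain ⟨p, q, r, hpq, hpr, hqr, rfl⟩ := Finset.card_eq_three.1 hT3
  simp only [Finset.mem_insert, Finset.mem_singleton, not_or] at hvT
  obtain ⟨hvp, hvq, hvr⟩ := hvT
  have hup : ∀ β : Fin 3, ∀ x ∈ ({p, q, r} : Finset W), Function.update a v β x = a x := by
    intro β x hx
    apply Function.update_of_ne
    rintro rfl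
    simp only [Finset.mem_insert, Finset.mem_singleton] at hx
    rcases hx with h | h | h
    · exact hvp h
    · exact hvq h
    · exact hvr h
  have hbp : ∀ β : Fin 3, Function.update a v β p = a p := fun β => hup β p (by simp)
  have hbq : ∀ β : Fin 3, Function.update a v β q = a q := fun β => hup β q (by simp)
  have hbr : ∀ β : Fin 3, Function.update a v β r = a r := fun β => hup β r (by simp)
  have hbv : ∀ β : Fin 3, Function.update a v β v = β := fun β => Function.update_self _ _ _
  have third : ∀ x y : Fin 3, ∃ z : Fin 3, z ≠ x ∧ z ≠ y := by decide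
  -- not all equal
  have hnm : ¬ (a p = a q ∧ a p = a r) := by
    rintro ⟨h1, h2⟩
    apply hm
    intro x hx y hy
    simp only [Finset.mem_insert, Finset.mem_singleton] at hx hy
    rcases hx with rfl | rfl | rfl <;> rcases hy with rfl | rfl | rfl <;> simp_all
  by_cases h1 : a p = a q
  · have h2 : a p ≠ a r := fun h => hnm ⟨h1, h⟩
    obtain ⟨β, hβ1, hβ2⟩ := third (a p) (a r)
    refine ⟨Function.update a v β, hup β, ?_⟩
    refine fc_of_four Φ _ p q r v (hvt.trans ?_) hpq ?_ ?_ ?_ ?_
    · intro x hx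
      simp only [Finset.mem_insert, Finset.mem_singleton] at hx ⊢
      tauto
    · rw [hbp, hbq]; exact h1
    · rw [hbp, hbr]; exact h2
    · rw [hbp, hbv]; exact hβ1.symm
    · rw [hbr, hbv]; exact hβ2.symm
  · by_cases h2 : a p = a r
    · obtain ⟨β, hβ1, hβ2⟩ := third (a p) (a q)
      refine ⟨Function.update a v β, hup β, ?_⟩
      refine fc_of_four Φ _ p r q v (hvt.trans ?_) hpr ?_ ?_ ?_ ?_
      · intro x hx
        simp only [Finset.mem_insert, Finset.mem_singleton] at hx ⊢
        tauto
      · rw [hbp, hbr]; exact h2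
      · rw [hbp, hbq]; exact h1
      · rw [hbp, hbv]; exact hβ1.symm
      · rw [hbq, hbv]; exact hβ2.symm
    · by_cases h3 : a q = a r
      · obtain ⟨β, hβ1, hβ2⟩ := third (a q) (a p)
        refine ⟨Function.update a v β, hup β, ?_⟩
        refine fc_of_four Φ _ q r p v (hvt.trans ?_) hqr ?_ ?_ ?_ ?_
        · intro x hx
          simp only [Finset.mem_insert, Finset.mem_singleton] at hx ⊢
          tauto
        · rw [hbq, hbr]; exact h3
        · rw [hbq, hbp]; exact fun h => h1 h.symm
        · rw [hbq, hbv]; exact hβ1.symm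
        · rw [hbp, hbv]; exact hβ2.symm
      · refine ⟨Function.update a v (a p), hup _, ?_⟩
        refine fc_of_four Φ _ v p q r (hvt.trans ?_) hvp ?_ ?_ ?_ ?_
        · intro x hx
          simp only [Finset.mem_insert, Finset.mem_singleton] at hx ⊢
          tauto
        · rw [hbv, hbp]
        · rw [hbv, hbq]; exact h1
        · rw [hbv, hbr]; exact h2
        · rw [hbq, hbr]; exact h3

end Pool.Agent.R434.HB
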